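import Mathlib
import Pool.Agent.Helper52.SturmStatement
import Pool.Agent.Helper52.SturmMain

set_option autoImplicit false

open Pool.Agent.Helper52

/-- For every coupling `lam > 0` there are tail-equivalent irrational frequencies `α, β ∈ (0,1)`
such that the spectra of the Sturmian Hamiltonians with frequencies `α` and `β` (for any phases)
are not diffeomorphic. -/
theorem Pool.Agent.Results.MP_e333c6_mp.TailSpectra.result :
    ∀ lam : ℝ, 0 < lam →
      ∃ α β : ℝ, α ∈ Set.Ioo (0 : ℝ) 1 ∧ β ∈ Set.Ioo (0 : ℝ) 1 ∧ Irrational α ∧ Irrational β ∧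
        TailEquiv α β ∧
        ∀ ω ω' : ℝ, ¬ Diffeomorphic (spec lam α ω) (spec lam β ω') :=
  main_theorem
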